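import Pool.Agent.Run7.h699.AddF.LA

/-!
# Additive filters decide sets, in ZF

Every transitive model `M` of ZF satisfies the statement (E): for every additive filter `F` on
`{1, 2, 3, ...}` and every `b ⊆ {1, 2, 3, ...}` there is an additive filter `G ⊇ F` that contains `b`
or its complement. The axiom of choice, or a weak form of it, is not assumed in `M`. Here `M` is a
set or a class of sets, of any size, transitive, and `IsZF` says that it satisfies the axioms of ZF.

The statements about filters are evaluated in `M`: filters (`FilterIn`), ultrafilters (`Ultra`) and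
sets of positive natural numbers are those that are elements of `M`, see `Pool.Agent.R602.IU.Stat`;
for an element `V` of `M` the set `sft V a` consists of all `n` with `{m | m + n ∈ a} ∈ V`, so that
`F ⊆ F ⊕ V` means that `sft V a` is in `F` for all `a` in `F`.

## Proof (in ZF)

If some filter above `F` that contains `b` or the complement of `b` is not contained in any
ultrafilter, it is additive for trivial reasons. So assume that all these filters are contained in
ultrafilters. Then `F` is additive in the following combinatorial sense: if `a ∈ F`, and `y` meets all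
the sets in `F`, then for some `k` the union of the sets `a - n`, with `n ∈ y` and `n < k`, is in `F`.
(Otherwise the complements of these finite unions generate with `F` a filter; a filter above it
contains `b` or the complement of `b`, hence there is an ultrafilter `V` above it. As `F` is additive,
the set of all `n` with `a - n ∈ V` is in `F`, so it meets `y`; a contradiction.)

Let `C` be the class of all sets that are constructible relative to `F` and `b`. It is a model of ZF
with a definable well-ordering, `b ∈ C` and `F ∩ C ∈ C`. The combinatorial condition shows that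
`F ∩ C` is additive in `C`. As the axiom of choice is true in `C`, it has a maximal additive filter
above `F ∩ C`, and by the argument of Ellis an ultrafilter `V` of `C` above it is idempotent in `C`.
Finally the filter `G` generated by `F` and `V` in the given universe is additive: if `W` is an
ultrafilter above `G` and `z ∈ V` then the set of all `n` with `z - n ∈ W` is the set of all `n` with
`z - n ∈ V`, because `V` is an ultrafilter in `C`, and it belongs to `V` because `V` is idempotent.
-/

set_option autoImplicit false

namespace Pool.Agent.Results.MP_084d61_lc.DecidingIsTheoremOfZF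

open Pool.Agent.W868 Pool.Agent.R602.IU

/-- In `M`, the filter `F` is additive: for every ultrafilter `V` that contains `F`, and all `a` in
`F`, the set of all `n` with `a - n ∈ V` is in `F`. -/
def Additive (M : Set ZFSet.{0}) (F : ZFSet.{0}) : Prop :=
  ∀ V, Ultra M V → F ⊆ V → ∀ a, enc a ∈ F → enc (sft V a) ∈ F

theorem fil_of {M : Set ZFSet.{0}} (hM : IsZF M) {D : ZFSet.{0}} (h : FilterIn M D) :
    Run7.h699.AddF.Fil (Run7.h699.AddF.Re M) (Run7.h699.AddF.un D) :=
  ⟨fun _ ha => hM.trans _ h.mem _ ha, h.univ, h.ne, fun a ha b hb => h.inter a b ha hb,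
    fun a ha b hb hab => h.up a b ha hb hab⟩

theorem of_fil {M : Set ZFSet.{0}} {D Pw : ZFSet.{0}}
    (hPw : ∀ z, z ∈ Pw ↔ z ∈ M ∧ z ⊆ Run7.h699.AddF.Pn) (hD : D ∈ M) (hDP : D ⊆ Pw)
    (h : Run7.h699.AddF.Fil (Run7.h699.AddF.Re M) (Run7.h699.AddF.un D)) : FilterIn M D :=
  ⟨hD, fun z hz => ⟨_, (Run7.h699.AddF.enc_dec ((hPw z).1 (hDP hz)).2).symm⟩, h.univ, h.ne,
    fun a b ha hb => h.inter a ha b hb, fun a b ha hb hab => h.up a ha b hb hab⟩

/-- **(E) is true in every transitive model of ZF.** If `F` is an additive filter on
`{1, 2, 3, ...}` in `M`, and `b` is a set of positive natural numbers in `M`, then there is an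
additive filter `G` in `M` that contains `F`, and contains `b` or its complement. -/
theorem result (M : Set ZFSet.{0}) (hM : IsZF M) (F : ZFSet.{0}) (hF : FilterIn M F)
    (hFA : Additive M F) (b : Set ℕ+) (hb : enc b ∈ M) :
    ∃ G, FilterIn M G ∧ Additive M G ∧ F ⊆ G ∧ (enc b ∈ G ∨ enc bᶜ ∈ G) := by
  obtain ⟨Pw, hPM, hPw⟩ := hM.exists_pow (Run7.h699.AddF.Pn_mem hM)
  have hsub : ∀ {D : ZFSet.{0}}, FilterIn M D → D ⊆ Pw := by
    intro D hD z hz
    obtain ⟨a, rfl⟩ := hD.sub z hz
    exact (hPw _).2 ⟨hM.trans _ hD.mem _ hz, Run7.h699.AddF.enc_sub a⟩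
  obtain ⟨G', hG', hGF, hGA, hFG, hGb⟩ := Run7.h699.AddF.mainF hM (F := Run7.h699.AddF.un F)
    ⟨F, hF.mem, rfl⟩ (fil_of hM hF) (by
      intro V hV hVU hFV a ha
      obtain ⟨E, hE, hEP, rfl⟩ := Run7.h699.AddF.fa_norm hM hPw hV hPM
      exact hFA E ⟨of_fil hPw hE hEP hVU.toFil, fun a ha => hVU.dec a ha⟩
        ((Run7.h699.AddF.un_subset hPw (hsub hF)).1 hFV) a ha) hb
  obtain ⟨G, hG, hGP, rfl⟩ := Run7.h699.AddF.fa_norm hM hPw hG' hPM
  refine ⟨G, of_fil hPw hG hGP hGF, ?_, (Run7.h699.AddF.un_subset hPw (hsub hF)).1 hFG, hGb⟩
  intro V hV hGV a ha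
  exact hGA _ ⟨V, hV.1.mem, rfl⟩ ⟨fil_of hM hV.1, fun a ha => hV.2 a ha⟩
    ((Run7.h699.AddF.un_subset hPw hGP).2 hGV) a ha

end Pool.Agent.Results.MP_084d61_lc.DecidingIsTheoremOfZF
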